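import Pool.Agent.Helper82.OG.Near
import Pool.Agent.Helper82.OP.Var
import Pool.Agent.Helper28.TL.Defs

/-!
# TOL, T3: the variance of every prediction of a statistic of the window which is not the number
-/

set_option autoImplicit false
open MeasureTheory Set Filter Topology SchwartzMap ContDiff
open Pool.Agent.Helper57.TX (QX)
open Pool.Agent.Helper69.UG (XX)
open Pool.Agent.Helper93.UG (sp)
open Pool.Agent.Helper28.TL

namespace Pool.Agent.Helper82.OG

lemma EvC_re {R L : ℝ} (F : Fam R L) (g : ℝ → ℂ) : (EvC F g).re = Ev F fun x => (g x).re := by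
  unfold EvC Ev
  rw [Complex.add_re, Complex.sub_re, Complex.re_sum]
  congr 1
  refine Finset.sum_congr rfl fun i _ => ?_
  rw [Complex.re_ofReal_mul, Complex.sub_re]

lemma EvC_smul {R L : ℝ} (F : Fam R L) (c : ℂ) (g : ℝ → ℂ) : EvC F (fun x => c * g x) = c * EvC F g := by
  unfold EvC
  rw [mul_add, Finset.mul_sum, mul_sub]
  congr 1
  refine Finset.sum_congr rfl fun i _ => ?_
  ring

lemma Ev_smul {R L : ℝ} (F : Fam R L) (c : ℝ) (g : ℝ → ℝ) : Ev F (fun x => c * g x) = c * Ev F g := by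
  unfold Ev
  rw [mul_add, Finset.mul_sum, mul_sub]
  congr 1
  refine Finset.sum_congr rfl fun i _ => ?_
  ring

lemma Ev_sum {R L : ℝ} (F : Fam R L) (Q : Finset ℕ) (g : ℕ → ℝ → ℝ) : Ev F (fun x => ∑ p ∈ Q, g p x) = ∑ p ∈ Q, Ev F (g p) := by
  unfold Ev
  rw [Finset.sum_add_distrib, Finset.sum_sub_distrib, Finset.sum_comm]
  congr 1
  refine Finset.sum_congr rfl fun i _ => ?_
  rw [← Finset.sum_sub_distrib, Finset.mul_sum]

/-- two functions which are close on `[-L, L]` -/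
lemma Ev_near {R L v : ℝ} (hR : 0 < R) (hRL : R ≤ L) (F : Fam R L) {g h : ℝ → ℝ}
    (hg : ∀ x : ℝ, |x| ≤ L → |g x - h x| ≤ v) : |Ev F g - Ev F h| ≤ 2 * F.B * v := by
  have h2 : ∀ i, |F.c i * ((g (F.b i) - g (F.a i)) - (h (F.b i) - h (F.a i)))| ≤ |F.c i| * (2 * v) := by
    intro i
    rw [abs_mul]
    apply mul_le_mul_of_nonneg_left _ (abs_nonneg _)
    have hle := F.le i
    obtain ⟨h3, h4⟩ := F.inn i
    have h5 := hg (F.b i) (abs_le.2 ⟨by linarith, h4⟩)
    have h6 := hg (F.a i) (abs_le.2 ⟨h3, by linarith⟩)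
    rw [abs_le] at h5 h6 ⊢
    constructor <;> linarith [h5.1, h5.2, h6.1, h6.2]
  have h3 : |∑ i, F.c i * ((g (F.b i) - g (F.a i)) - (h (F.b i) - h (F.a i)))| ≤ ∑ i, |F.c i| * (2 * v) :=
    (Finset.abs_sum_le_sum_abs _ _).trans (Finset.sum_le_sum fun i _ => h2 i)
  rw [← Finset.sum_mul] at h3
  have h4 : Ev F g - Ev F h = ((g R - h R) - (g (-R) - h (-R))) +
      ∑ i, F.c i * ((g (F.b i) - g (F.a i)) - (h (F.b i) - h (F.a i))) := by
    unfold Ev
    have : ∑ i, F.c i * ((g (F.b i) - g (F.a i)) - (h (F.b i) - h (F.a i))) =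
        ∑ i, F.c i * (g (F.b i) - g (F.a i)) - ∑ i, F.c i * (h (F.b i) - h (F.a i)) := by
      rw [← Finset.sum_sub_distrib]
      exact Finset.sum_congr rfl fun i _ => by ring
    rw [this]
    ring
  have h5 := hg R (by rw [abs_of_pos hR]; exact hRL)
  have h6 := hg (-R) (by rw [abs_neg, abs_of_pos hR]; exact hRL)
  rw [h4]
  unfold Fam.B
  rw [abs_le] at h3 h5 h6 ⊢
  constructor <;> linarith [h3.1, h3.2, h5.1, h5.2, h6.1, h6.2]

/-- one prime -/
lemma one_prime {k T R L : ℝ} (hT : 1 < T) (hR : 0 < R) (F : Fam R L) (G : 𝓢(ℝ, ℂ)) (p : ℕ) :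
    |pr k T R L p * Ev F (fun x => qf G (x / R) (R * Real.log p / Real.log T))| ≤
      Real.pi * ‖G (R * Real.log p / Real.log T)‖ * ‖wo k T F p‖ := by
  have hpi := Real.pi_pos
  have hlT : 0 < Real.log T := Real.log_pos hT
  obtain ⟨z, hz⟩ : ∃ z, z = G (R * Real.log p / Real.log T) := ⟨_, rfl⟩
  have h1 : ∀ x : ℝ, qf G (x / R) (R * Real.log p / Real.log T) =
      ((starRingEnd ℂ) z * Complex.exp (-((x * sp T * Real.log p : ℝ) : ℂ) * Complex.I)).re := by
    intro x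
    unfold qf
    rw [← hz]
    have h2 : 2 * Real.pi * (R * Real.log p / Real.log T) * (x / R) = x * sp T * Real.log p := by
      unfold sp
      field_simp
    rw [h2]
    have h3 : (starRingEnd ℂ) z * Complex.exp (-((x * sp T * Real.log p : ℝ) : ℂ) * Complex.I) =
        (starRingEnd ℂ) (Complex.exp (((x * sp T * Real.log p : ℝ) : ℂ) * Complex.I) * z) := by
      rw [map_mul, ← Complex.exp_conj, map_mul, Complex.conj_ofReal, Complex.conj_I, mul_comm]
      congr 2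
      ring
    rw [h3, Complex.conj_re]
  have h2 : pr k T R L p * Ev F (fun x => qf G (x / R) (R * Real.log p / Real.log T)) =
      ((starRingEnd ℂ) z * (Real.pi * Complex.I * wo k T F p)).re := by
    simp_rw [h1]
    rw [← EvC_re F (fun x => (starRingEnd ℂ) z * Complex.exp (-((x * sp T * Real.log p : ℝ) : ℂ) * Complex.I)), EvC_smul]
    have h3 : (starRingEnd ℂ) z * (Real.pi * Complex.I * wo k T F p) =
        ((pr k T R L p : ℝ) : ℂ) * ((starRingEnd ℂ) z * EvC F fun x => Complex.exp (-((x * sp T * Real.log p : ℝ) : ℂ) * Complex.I)) := by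
      unfold wo
      have h4 : (Real.pi : ℂ) ≠ 0 := by exact_mod_cast hpi.ne'
      have h5 : (Real.pi : ℂ) * Complex.I * (-(Complex.I / Real.pi)) = 1 := by
        field_simp
        rw [Complex.I_sq]
        ring
      calc _ = ((Real.pi : ℂ) * Complex.I * (-(Complex.I / Real.pi))) * (((pr k T R L p : ℝ) : ℂ) * ((starRingEnd ℂ) z *
            EvC F fun x => Complex.exp (-((x * sp T * Real.log p : ℝ) : ℂ) * Complex.I))) := by ring
        _ = _ := by rw [h5, one_mul]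
    rw [h3, Complex.re_ofReal_mul]
  rw [h2]
  refine (Complex.abs_re_le_norm _).trans ?_
  rw [norm_mul, norm_mul, norm_mul, RCLike.norm_conj, Complex.norm_I, mul_one, Complex.norm_real, Real.norm_eq_abs, abs_of_pos hpi, ← hz]
  apply le_of_eq
  ring

/-- Cauchy-Schwarz -/
lemma csG (Q : Finset ℕ) (w m : ℕ → ℝ) :
    (∑ p ∈ Q, m p * w p / p) ^ 2 ≤ (∑ p ∈ Q, m p ^ 2 / p) * ∑ p ∈ Q, w p ^ 2 / p := by
  have h1 := Finset.sum_mul_sq_le_sq_mul_sq Q (fun p => m p / Real.sqrt p) (fun p => w p / Real.sqrt p)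
  have h2 : ∀ p : ℕ, m p / Real.sqrt p * (w p / Real.sqrt p) = m p * w p / p := by
    intro p
    rw [div_mul_div_comm, Real.mul_self_sqrt (Nat.cast_nonneg p)]
  have h3 : ∀ p : ℕ, (m p / Real.sqrt p) ^ 2 = m p ^ 2 / p := by
    intro p
    rw [div_pow, Real.sq_sqrt (Nat.cast_nonneg p)]
  have h4 : ∀ p : ℕ, (w p / Real.sqrt p) ^ 2 = w p ^ 2 / p := by
    intro p
    rw [div_pow, Real.sq_sqrt (Nat.cast_nonneg p)]
  simp only [h2, h3, h4] at h1
  exact h1

/-- **T3** -/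
theorem var_lowG {k d : ℝ} (hk : 0 < k) (hkd : k ≤ d / 100) (hd : 0 < d) (hd1 : d ≤ 1) {Psi : ℝ → ℝ}
    (hP : ContDiff ℝ ∞ Psi) (hc : HasCompactSupport Psi) {κ : ℝ} (hκ : 0 < κ) : ∃ w0 C T₀ : ℝ, 0 < w0 ∧ 1 ≤ C ∧
    ∀ T R L : ℝ, T₀ ≤ T → C ≤ L → Rng d T R L → ∀ F : Fam R L, F.B ≤ (L / R) ^ (k / 4) →
      κ ≤ |Ev F (fun x => Psi (x / R))| → w0 ≤ Wf k T F := by
  obtain ⟨G, C1, hC1, H1⟩ := inv_near hP hc
  obtain ⟨N, hN, H2⟩ := sq_sum G
  have hpi := Real.pi_pos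
  have hD1 : 1 ≤ 16 * C1 / κ + 1 := by
    have : 0 < 16 * C1 / κ := by positivity
    linarith
  have hD0 : 0 < (16 * C1 / κ + 1) ^ (4 / (3 * k * d)) := by positivity
  refine ⟨κ ^ 2 / (16 * Real.pi ^ 2 * N), (16 * C1 / κ + 1) ^ (4 / (3 * k * d)) + 3, 3, by positivity, by linarith,
    fun T R L hT hL hr F hB hκF => ?_⟩
  obtain ⟨hlT, hR0, hU1, hUd, hM1, hMR, hLLf, hLfT, q1, q2, q3, q4⟩ := OP.par hk hkd hd hd1 hT (by linarith) hr
  have hL0 : 0 < L := by linarith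
  have hU0 : 0 < L / R := by linarith
  have hRL : R ≤ L := by rwa [one_le_div hR0] at hU1
  have hM0 : 0 < Ms k R L := by linarith
  have hlT0 : 0 < Real.log T := by linarith
  obtain ⟨U, hU⟩ : ∃ U, U = L / R := ⟨_, rfl⟩
  -- the approximation
  obtain ⟨Q, hQ⟩ : ∃ Q, Q = QX (Xo k T R L) := ⟨_, rfl⟩
  obtain ⟨xi, hxi⟩ : ∃ xi : ℕ → ℝ, xi = fun p : ℕ => R * Real.log (p : ℝ) / Real.log T := ⟨_, rfl⟩
  obtain ⟨Ph, hPh⟩ : ∃ Ph : ℝ → ℝ, Ph = fun x => 2 * ∑ p ∈ Q, (pr k T R L p * xi p / p) * qf G (x / R) (xi p) := ⟨_, rfl⟩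
  have hnear : ∀ x : ℝ, |x| ≤ L → |Psi (x / R) - Ph x| ≤ 4 * C1 * U ^ (-k) := by
    intro x hx
    have h1 := H1 (Real.log T) (Ms k R L) R (x / R) hlT0 hM0 hR0
    have h2 : ∑ p ∈ QX (Real.log T / Ms k R L), (1 - Ms k R L * Real.log p / Real.log T) ^ 2 * (R * Real.log p / Real.log T) *
        qf G (x / R) (R * Real.log p / Real.log T) / p = ∑ p ∈ Q, (pr k T R L p * xi p / p) * qf G (x / R) (xi p) := by
      rw [hQ, OP.Xo_eq]
      refine Finset.sum_congr rfl fun p _ => ?_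
      rw [OP.pr_eq, hxi]
      ring
    rw [h2] at h1
    rw [hPh]
    refine h1.trans ?_
    have h3 : R * |x / R| = |x| := by
      rw [abs_div, abs_of_pos hR0]
      field_simp
    have h4 : (Ms k R L + R + R * |x / R|) / Real.log T ≤ 3 * U ^ (-k) := by
      rw [h3]
      have h5 : (Ms k R L + R + |x|) / Real.log T ≤ 3 * (Lf k R L / Real.log T) := by
        rw [← mul_div_assoc]
        apply div_le_div_of_nonneg_right _ hlT0.le
        linarith
      refine h5.trans (mul_le_mul_of_nonneg_left (q1.trans ?_) (by norm_num))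
      rw [hU]
      exact Real.rpow_le_rpow_of_exponent_le hU1 (by linarith)
    rw [q2, ← hU]
    calc C1 * (U ^ (-k) + (Ms k R L + R + R * |x / R|) / Real.log T) ≤ C1 * (U ^ (-k) + 3 * U ^ (-k)) :=
        mul_le_mul_of_nonneg_left (by linarith) hC1.le
      _ = _ := by ring
  have hE := Ev_near hR0 hRL F hnear
  -- the error is small
  rw [← hU] at hB hUd hU0 hU1
  have herr : 2 * F.B * (4 * C1 * U ^ (-k)) ≤ κ / 2 := by
    have h1 : 2 * F.B * (4 * C1 * U ^ (-k)) ≤ 2 * U ^ (k / 4) * (4 * C1 * U ^ (-k)) := by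
      have : 0 ≤ 4 * C1 * U ^ (-k) := by positivity
      nlinarith [mul_le_mul_of_nonneg_right hB this]
    have h2 : 2 * U ^ (k / 4) * (4 * C1 * U ^ (-k)) = 8 * C1 * U ^ (-(3 * k / 4)) := by
      have : U ^ (-(3 * k / 4)) = U ^ (k / 4) * U ^ (-k) := by
        rw [← Real.rpow_add hU0]
        congr 1
        ring
      rw [this]
      ring
    have h3 : 16 * C1 / κ ≤ U ^ (3 * k / 4) := by
      have h4 : (16 * C1 / κ + 1) ^ (4 / (3 * k * d)) ≤ L := by linarith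
      have h5 : ((16 * C1 / κ + 1) ^ (4 / (3 * k * d))) ^ (3 * k * d / 4) = 16 * C1 / κ + 1 := by
        rw [← Real.rpow_mul (by linarith)]
        have : 4 / (3 * k * d) * (3 * k * d / 4) = 1 := by field_simp
        rw [this, Real.rpow_one]
      have h6 : ((16 * C1 / κ + 1) ^ (4 / (3 * k * d))) ^ (3 * k * d / 4) ≤ L ^ (3 * k * d / 4) :=
        Real.rpow_le_rpow hD0.le h4 (by positivity)
      have h7 : L ^ (3 * k * d / 4) = (L ^ d) ^ (3 * k / 4) := by
        rw [← Real.rpow_mul hL0.le]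
        congr 1
        ring
      have h8 : (L ^ d) ^ (3 * k / 4) ≤ U ^ (3 * k / 4) := Real.rpow_le_rpow (by positivity) hUd (by positivity)
      rw [h5, h7] at h6
      linarith
    refine h1.trans (h2.le.trans ?_)
    rw [Real.rpow_neg hU0.le, ← div_eq_mul_inv, div_le_iff₀ (by positivity)]
    rw [div_le_iff₀ hκ] at h3
    linarith
  -- the dual sum
  have hEP : Ev F Ph = 2 * ∑ p ∈ Q, (xi p / p) * (pr k T R L p * Ev F fun x => qf G (x / R) (xi p)) := by
    rw [hPh, Ev_smul, Ev_sum F Q (fun p x => (pr k T R L p * xi p / p) * qf G (x / R) (xi p))]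
    congr 1
    refine Finset.sum_congr rfl fun p _ => ?_
    rw [Ev_smul]
    ring
  have hxi0 : ∀ p : ℕ, 0 ≤ xi p := by
    intro p
    rw [hxi]
    have : 0 ≤ Real.log p := Real.log_natCast_nonneg p
    positivity
  have hEP2 : |Ev F Ph| ≤ 2 * Real.pi * ∑ p ∈ Q, (xi p * ‖G (xi p)‖) * ‖wo k T F p‖ / p := by
    rw [hEP, abs_mul, abs_of_pos (by norm_num : (0:ℝ) < 2), mul_assoc]
    apply mul_le_mul_of_nonneg_left _ (by norm_num)
    rw [Finset.mul_sum]
    refine (Finset.abs_sum_le_sum_abs _ _).trans (Finset.sum_le_sum fun p _ => ?_)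
    have h1 := one_prime (k := k) (T := T) (by linarith) hR0 F G p
    rw [abs_mul, abs_of_nonneg (div_nonneg (hxi0 p) (Nat.cast_nonneg p))]
    have h2 : xi p / p * |pr k T R L p * Ev F fun x => qf G (x / R) (xi p)| ≤ xi p / p * (Real.pi * ‖G (xi p)‖ * ‖wo k T F p‖) := by
      apply mul_le_mul_of_nonneg_left _ (div_nonneg (hxi0 p) (Nat.cast_nonneg p))
      rw [hxi]
      exact h1
    refine h2.trans (le_of_eq ?_)
    ring
  have hcs := csG Q (fun p => ‖wo k T F p‖) (fun p => xi p * ‖G (xi p)‖)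
  have hN2 : ∑ p ∈ Q, (xi p * ‖G (xi p)‖) ^ 2 / p ≤ N := by
    have h1 := H2 (Real.log T) (Ms k R L) R hM0 hMR (by linarith)
    rw [hQ, OP.Xo_eq]
    refine le_trans (le_of_eq ?_) h1
    refine Finset.sum_congr rfl fun p _ => ?_
    rw [hxi]
    ring
  obtain ⟨S, hS⟩ : ∃ S, S = ∑ p ∈ Q, (xi p * ‖G (xi p)‖) * ‖wo k T F p‖ / p := ⟨_, rfl⟩
  rw [← hS] at hEP2
  have hW : ∑ p ∈ Q, ‖wo k T F p‖ ^ 2 / p = Wf k T F := by
    rw [hQ]
    rfl
  have hW0 : 0 ≤ Wf k T F := Finset.sum_nonneg fun p _ => by positivity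
  have hS2 : S ^ 2 ≤ N * Wf k T F := by
    rw [hS]
    refine hcs.trans ?_
    rw [hW]
    exact mul_le_mul_of_nonneg_right hN2 hW0
  have hlow : κ / 2 ≤ 2 * Real.pi * S := by
    have h1 := abs_sub_abs_le_abs_sub (Ev F fun x => Psi (x / R)) (Ev F Ph)
    linarith
  have hS0 : 0 ≤ S := by
    rw [hS]
    exact Finset.sum_nonneg fun p _ => by
      have := hxi0 p
      positivity
  rw [div_le_iff₀ (by positivity)]
  have h2 : (κ / 2) ^ 2 ≤ (2 * Real.pi * S) ^ 2 := pow_le_pow_left₀ (by positivity) hlow 2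
  have h3 : (2 * Real.pi * S) ^ 2 = 4 * Real.pi ^ 2 * S ^ 2 := by ring
  have h4 : 4 * Real.pi ^ 2 * S ^ 2 ≤ 4 * Real.pi ^ 2 * (N * Wf k T F) := mul_le_mul_of_nonneg_left hS2 (by positivity)
  calc κ ^ 2 = 4 * (κ / 2) ^ 2 := by ring
    _ ≤ 4 * (4 * Real.pi ^ 2 * (N * Wf k T F)) := by linarith
    _ = _ := by ring

end Pool.Agent.Helper82.OG
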