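import Pool.Agent.Helper93.NS.VarLow
import Pool.Agent.Helper82.NS.Geo

/-!
# TOL, T1 and T2: a smooth function of compact support from its Fourier integral at the primes
-/

set_option autoImplicit false
open MeasureTheory Set Filter Topology SchwartzMap FourierTransform ContDiff
open Pool.Agent.Helper57.TX (QX)
open Pool.Agent.Helper93.NS (mem_QX)
open Pool.Agent.Helper82.NS (mert_small)

namespace Pool.Agent.Helper82.OG

/-- decay -/
lemma dec (f : 𝓢(ℝ, ℂ)) : ∃ A : ℝ, 0 < A ∧ ∀ x : ℝ, (1 + |x|) ^ 4 * ‖f x‖ ≤ A := by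
  obtain ⟨C, hC⟩ : ∃ C : ℝ, ∀ x : ℝ, (1 + ‖x‖) ^ 4 * ‖iteratedFDeriv ℝ 0 f x‖ ≤ C :=
    ⟨_, fun x => SchwartzMap.one_add_le_sup_seminorm_apply (𝕜 := ℝ) (m := (4, 0)) (k := 4) (n := 0) le_rfl le_rfl f x⟩
  refine ⟨|C| + 1, by positivity, fun x => ?_⟩
  have h1 := hC x
  rw [norm_iteratedFDeriv_zero, Real.norm_eq_abs] at h1
  have := le_abs_self C
  linarith

/-- the integrand -/
noncomputable def qf (G : 𝓢(ℝ, ℂ)) (y u : ℝ) : ℝ := (Complex.exp ((2 * Real.pi * u * y : ℝ) * Complex.I) * G u).re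

lemma qf_eq (G : 𝓢(ℝ, ℂ)) (y u : ℝ) :
    qf G y u = Real.cos (2 * Real.pi * u * y) * (G u).re - Real.sin (2 * Real.pi * u * y) * (G u).im := by
  unfold qf
  rw [Complex.mul_re, Complex.exp_ofReal_mul_I_re, Complex.exp_ofReal_mul_I_im]

lemma qf_le (G : 𝓢(ℝ, ℂ)) (y u : ℝ) : |qf G y u| ≤ ‖G u‖ := by
  unfold qf
  refine (Complex.abs_re_le_norm _).trans ?_
  rw [norm_mul, Complex.norm_exp_ofReal_mul_I, one_mul]

lemma qf_cont (G : 𝓢(ℝ, ℂ)) (y : ℝ) : Continuous (qf G y) := by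
  unfold qf
  have := G.continuous
  fun_prop

/-- its derivative -/
noncomputable def qf' (G : 𝓢(ℝ, ℂ)) (y u : ℝ) : ℝ :=
  (Complex.exp ((2 * Real.pi * u * y : ℝ) * Complex.I) * ((2 * Real.pi * y : ℝ) * Complex.I) * G u +
    Complex.exp ((2 * Real.pi * u * y : ℝ) * Complex.I) * derivCLM ℝ ℂ G u).re

lemma qf_deriv (G : 𝓢(ℝ, ℂ)) (y u : ℝ) : HasDerivAt (qf G y) (qf' G y u) u := by
  have h1 : HasDerivAt (fun u : ℝ => ((2 * Real.pi * u * y : ℝ) : ℂ) * Complex.I) (((2 * Real.pi * y : ℝ) : ℂ) * Complex.I) u := by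
    have h0 : HasDerivAt (fun u : ℝ => 2 * Real.pi * u * y) (2 * Real.pi * y) u := by
      have := ((hasDerivAt_id u).const_mul (2 * Real.pi)).mul_const y
      simpa using this
    exact h0.ofReal_comp.mul_const Complex.I
  have h2 := (h1.cexp).mul (G.hasDerivAt u)
  have h3 := Complex.reCLM.hasFDerivAt.comp_hasDerivAt u h2
  rw [← derivCLM_apply ℝ] at h3
  exact h3

lemma qf'_cont (G : 𝓢(ℝ, ℂ)) (y : ℝ) : Continuous (qf' G y) := by
  unfold qf'
  have h1 := G.continuous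
  have h2 := (derivCLM ℝ ℂ G).continuous
  fun_prop

lemma qf'_le (G : 𝓢(ℝ, ℂ)) (y u : ℝ) : |qf' G y u| ≤ 2 * Real.pi * |y| * ‖G u‖ + ‖derivCLM ℝ ℂ G u‖ := by
  unfold qf'
  refine (Complex.abs_re_le_norm _).trans ?_
  refine (norm_add_le _ _).trans ?_
  rw [norm_mul, norm_mul, norm_mul, norm_mul, Complex.norm_exp_ofReal_mul_I, Complex.norm_I, Complex.norm_real, Real.norm_eq_abs, abs_mul,
    abs_of_pos (by positivity : 0 < 2 * Real.pi)]
  simp

/-- inversion on the half line -/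
theorem four {Psi : ℝ → ℝ} (hs : ContDiff ℝ ∞ Psi) (hc : HasCompactSupport Psi) :
    ∃ G : 𝓢(ℝ, ℂ), ∀ y : ℝ, Psi y = 2 * ∫ u in Ioi (0:ℝ), qf G y u := by
  have hc' : HasCompactSupport (fun x => (Psi x : ℂ)) := hc.comp_left (g := fun r : ℝ => (r : ℂ)) Complex.ofReal_zero
  have hs' : ContDiff ℝ ∞ (fun x => (Psi x : ℂ)) := Complex.ofRealCLM.contDiff.comp hs
  obtain ⟨f, hf⟩ : ∃ f : 𝓢(ℝ, ℂ), ∀ x, f x = (Psi x : ℂ) := ⟨hc'.toSchwartzMap hs', fun x => rfl⟩
  refine ⟨𝓕 f, fun y => ?_⟩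
  -- the integral over the line
  have h1 : (Psi y : ℂ) = ∫ u : ℝ, Complex.exp ((2 * Real.pi * u * y : ℝ) * Complex.I) * (𝓕 f) u := by
    have h2 : (𝓕⁻ (𝓕 f) : 𝓢(ℝ, ℂ)) y = f y := by rw [FourierTransform.fourierInv_fourier_eq]
    rw [hf, SchwartzMap.fourierInv_coe] at h2
    rw [← h2]
    rw [Real.fourierInv_eq']
    refine integral_congr_ae (ae_of_all _ fun u => ?_)
    simp only [smul_eq_mul]
    congr 3
    simp only [RCLike.inner_apply, conj_trivial]
    push_cast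
    ring
  have hint : Integrable (fun u : ℝ => Complex.exp ((2 * Real.pi * u * y : ℝ) * Complex.I) * (𝓕 f) u) := by
    refine (𝓕 f).integrable.bdd_mul (c := 1) ?_ (ae_of_all _ fun u => ?_)
    · exact Continuous.aestronglyMeasurable (by fun_prop)
    · rw [Complex.norm_exp_ofReal_mul_I]
  have h3 : Psi y = ∫ u : ℝ, qf (𝓕 f) y u := by
    have h4 := congrArg Complex.re h1
    rw [Complex.ofReal_re] at h4
    rw [h4]
    exact (integral_re hint).symm
  -- evenness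
  have hev : ∀ u, (𝓕 f) (-u) = (starRingEnd ℂ) ((𝓕 f) u) := by
    intro u
    rw [SchwartzMap.fourier_coe, Real.fourier_real_eq_integral_exp_smul, Real.fourier_real_eq_integral_exp_smul, ← integral_conj]
    refine integral_congr_ae (ae_of_all _ fun v => ?_)
    simp only [smul_eq_mul, map_mul, hf, Complex.conj_ofReal]
    rw [← Complex.exp_conj]
    congr 2
    simp only [map_mul, Complex.conj_ofReal, Complex.conj_I]
    push_cast
    ring
  have hq : ∀ u, qf (𝓕 f) y (-u) = qf (𝓕 f) y u := by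
    intro u
    rw [qf_eq, qf_eq, hev, show 2 * Real.pi * -u * y = -(2 * Real.pi * u * y) by ring, Real.cos_neg, Real.sin_neg, Complex.conj_re,
      Complex.conj_im]
    ring
  have hq2 : ∀ u, qf (𝓕 f) y |u| = qf (𝓕 f) y u := by
    intro u
    rcases abs_cases u with h | h
    · rw [h.1]
    · rw [h.1, hq]
  rw [h3, ← integral_comp_abs]
  simp_rw [hq2]

end Pool.Agent.Helper82.OG
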