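import Pool.Agent.Helper82.OG.Inv

/-!
# TOL, T1 and T2, continued: the primes
-/

set_option autoImplicit false
open MeasureTheory Set Filter Topology SchwartzMap FourierTransform ContDiff
open Pool.Agent.Helper57.TX (QX)
open Pool.Agent.Helper93.NS (mem_QX)
open Pool.Agent.Helper82.NS (mert_small)

namespace Pool.Agent.Helper82.OG

/-- decay, in the form used -/
lemma dec2 (f : 𝓢(ℝ, ℂ)) : ∃ A : ℝ, 0 < A ∧ (∀ x : ℝ, ‖f x‖ ≤ A * (1 + x ^ 2)⁻¹) ∧ (∀ x : ℝ, |x| * ‖f x‖ ≤ A * (1 + x ^ 2)⁻¹) ∧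
    ∀ x : ℝ, |x| ^ 3 * ‖f x‖ ^ 2 ≤ A ^ 2 := by
  obtain ⟨A, hA, h⟩ := dec f
  have hx : ∀ x : ℝ, (1 + x ^ 2) * (1 + |x|) ≤ (1 + |x|) ^ 4 := by
    intro x
    have h1 : 1 + x ^ 2 ≤ (1 + |x|) ^ 2 := by
      have := sq_abs x
      nlinarith [abs_nonneg x]
    have h2 : 1 + |x| ≤ (1 + |x|) ^ 2 := by nlinarith [abs_nonneg x]
    calc (1 + x ^ 2) * (1 + |x|) ≤ (1 + |x|) ^ 2 * (1 + |x|) ^ 2 := mul_le_mul h1 h2 (by positivity) (by positivity)
      _ = _ := by ring
  refine ⟨A, hA, fun x => ?_, fun x => ?_, fun x => ?_⟩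
  · rw [← div_eq_mul_inv, le_div_iff₀ (by positivity)]
    refine le_trans ?_ (h x)
    rw [mul_comm]
    apply mul_le_mul_of_nonneg_right _ (norm_nonneg _)
    refine le_trans ?_ (hx x)
    exact le_mul_of_one_le_right (by positivity) (by linarith [abs_nonneg x])
  · rw [← div_eq_mul_inv, le_div_iff₀ (by positivity)]
    refine le_trans ?_ (h x)
    rw [mul_comm, ← mul_assoc]
    apply mul_le_mul_of_nonneg_right _ (norm_nonneg _)
    refine le_trans ?_ (hx x)
    exact mul_le_mul_of_nonneg_left (by linarith) (by positivity)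
  · have h1 := h x
    have h2 : |x| ^ 3 ≤ ((1 + |x|) ^ 4) ^ 2 := by
      calc |x| ^ 3 ≤ (1 + |x|) ^ 3 := pow_le_pow_left₀ (abs_nonneg x) (by linarith) 3
        _ ≤ (1 + |x|) ^ 8 := pow_le_pow_right₀ (by linarith [abs_nonneg x]) (by norm_num)
        _ = _ := by ring
    calc |x| ^ 3 * ‖f x‖ ^ 2 ≤ ((1 + |x|) ^ 4) ^ 2 * ‖f x‖ ^ 2 := mul_le_mul_of_nonneg_right h2 (by positivity)
      _ = ((1 + |x|) ^ 4 * ‖f x‖) ^ 2 := by ring
      _ ≤ A ^ 2 := pow_le_pow_left₀ (by positivity) h1 2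

lemma atan_int {b : ℝ} : ∫ u in (0:ℝ)..b, (1 + u ^ 2)⁻¹ ≤ 2 := by
  rw [integral_inv_one_add_sq, Real.arctan_zero]
  have := Real.arctan_lt_pi_div_two b
  have := Real.pi_lt_four
  linarith

/-- the main term -/
lemma main_term {G : 𝓢(ℝ, ℂ)} {A : ℝ} (hG : ∀ x : ℝ, |x| * ‖G x‖ ≤ A * (1 + x ^ 2)⁻¹) (hA : 0 < A) {Y : ℝ} (hY : 0 < Y) (y : ℝ) :
    |(∫ u in (0:ℝ)..Y, (1 - u / Y) ^ 2 * qf G y u) - ∫ u in Ioi (0:ℝ), qf G y u| ≤ 4 * A / Y := by
  have hqi : Integrable (qf G y) :=
    (G.integrable (μ := volume)).norm.mono' (qf_cont G y).aestronglyMeasurable (ae_of_all _ fun u => qf_le G y u)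
  obtain ⟨w, hw⟩ : ∃ w : ℝ → ℝ, w = fun u => (max 0 (1 - u / Y)) ^ 2 := ⟨_, rfl⟩
  have hw01 : ∀ u, 0 ≤ u → 0 ≤ w u ∧ w u ≤ 1 ∧ 1 - w u ≤ 2 * u / Y := by
    intro u hu
    have h0 : 0 ≤ u / Y := by positivity
    rw [hw]
    simp only
    rcases le_total (1 - u / Y) 0 with h | h
    · rw [max_eq_left h]
      refine ⟨by norm_num, by norm_num, ?_⟩
      rw [mul_div_assoc]
      linarith
    · rw [max_eq_right h]
      refine ⟨by positivity, by nlinarith, ?_⟩
      rw [mul_div_assoc]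
      nlinarith [sq_nonneg (u / Y)]
  have hwi : IntegrableOn (fun u => w u * qf G y u) (Ioi 0) := by
    refine hqi.integrableOn.bdd_mul (c := 1) ?_ ?_
    · rw [hw]
      exact Continuous.aestronglyMeasurable (by fun_prop)
    · refine (ae_restrict_iff' measurableSet_Ioi).2 (ae_of_all _ fun u hu => ?_)
      obtain ⟨h1, h2, _⟩ := hw01 u (le_of_lt hu)
      rw [Real.norm_eq_abs, abs_of_nonneg h1]
      exact h2
  have h1 : ∫ u in (0:ℝ)..Y, (1 - u / Y) ^ 2 * qf G y u = ∫ u in Ioi (0:ℝ), w u * qf G y u := by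
    rw [← Ioc_union_Ioi_eq_Ioi hY.le, setIntegral_union Ioc_disjoint_Ioi_same measurableSet_Ioi
      (hwi.mono_set Ioc_subset_Ioi_self) (hwi.mono_set (Ioi_subset_Ioi hY.le)), intervalIntegral.integral_of_le hY.le]
    have h2 : ∫ u in Ioi Y, w u * qf G y u = 0 := by
      refine setIntegral_eq_zero_of_forall_eq_zero fun u hu => ?_
      have h3 : 1 - u / Y ≤ 0 := by
        have : 1 ≤ u / Y := by rw [one_le_div hY]; exact le_of_lt hu
        linarith
      rw [hw]
      simp only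
      rw [max_eq_left h3]
      simp
    rw [h2, add_zero]
    refine setIntegral_congr_fun measurableSet_Ioc fun u hu => ?_
    have h3 : 0 ≤ 1 - u / Y := by
      have : u / Y ≤ 1 := by rw [div_le_one hY]; exact hu.2
      linarith
    rw [hw]
    simp only
    rw [max_eq_right h3]
  rw [h1, ← integral_sub hwi hqi.integrableOn]
  have h2 : ∀ u ∈ Ioi (0:ℝ), ‖w u * qf G y u - qf G y u‖ ≤ 2 * A / Y * (1 + u ^ 2)⁻¹ := by
    intro u hu
    have hu0 : 0 < u := hu
    obtain ⟨h3, h4, h5⟩ := hw01 u hu0.le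
    rw [show w u * qf G y u - qf G y u = -((1 - w u) * qf G y u) by ring, norm_neg, norm_mul, Real.norm_eq_abs, Real.norm_eq_abs,
      abs_of_nonneg (by linarith : 0 ≤ 1 - w u)]
    have h6 := hG u
    rw [abs_of_pos hu0] at h6
    calc (1 - w u) * |qf G y u| ≤ (2 * u / Y) * ‖G u‖ := mul_le_mul h5 (qf_le G y u) (abs_nonneg _) (by positivity)
      _ = 2 / Y * (u * ‖G u‖) := by ring
      _ ≤ 2 / Y * (A * (1 + u ^ 2)⁻¹) := mul_le_mul_of_nonneg_left h6 (by positivity)
      _ = _ := by ring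
  have h3 := norm_integral_le_of_norm_le (μ := volume.restrict (Ioi (0:ℝ))) ((integrable_inv_one_add_sq.integrableOn (s := Ioi (0:ℝ))).const_mul (2 * A / Y))
    ((ae_restrict_iff' measurableSet_Ioi).2 (ae_of_all _ h2))
  rw [Real.norm_eq_abs] at h3
  refine h3.trans ?_
  rw [integral_const_mul, integral_Ioi_inv_one_add_sq, Real.arctan_zero, sub_zero]
  have hpi := Real.pi_lt_four
  have h4 : 0 < 2 * A / Y := by positivity
  calc 2 * A / Y * (Real.pi / 2) ≤ 2 * A / Y * 2 := mul_le_mul_of_nonneg_left (by linarith) h4.le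
    _ = _ := by ring

/-- the sum over the primes -/
lemma prime_part {G : 𝓢(ℝ, ℂ)} : ∃ C : ℝ, 0 < C ∧ ∀ l M R y : ℝ, 0 < l → 0 < M → 0 < R →
    |(∑ p ∈ QX (l / M), (1 - M * Real.log p / l) ^ 2 * (R * Real.log p / l) * qf G y (R * Real.log p / l) / p) -
      ∫ u in (0:ℝ)..(R / M), (1 - u / (R / M)) ^ 2 * qf G y u| ≤ C * ((M + R + R * |y|) / l) := by
  obtain ⟨A, hA, hG, -, -⟩ := dec2 G
  obtain ⟨A', hA', hG', -, -⟩ := dec2 (derivCLM ℝ ℂ G)
  obtain ⟨E, hE, H⟩ := Pool.Agent.Helper7.UV.prime_sum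
  refine ⟨E * (2 * (8 * A + A')), by positivity, fun l M R y hl hM hR => ?_⟩
  have hX : 0 < l / M := by positivity
  have hpi := Real.pi_pos
  obtain ⟨r, hr⟩ : ∃ r, r = R / l := ⟨_, rfl⟩
  have hr0 : 0 < r := by rw [hr]; positivity
  obtain ⟨F, hF⟩ : ∃ F : ℝ → ℝ, F = fun v => r * ((1 - v / (l / M)) ^ 2 * qf G y (r * v)) := ⟨_, rfl⟩
  obtain ⟨F', hF'⟩ : ∃ F' : ℝ → ℝ, F' = fun v => r * (2 * (1 - v / (l / M)) * (-(1 / (l / M))) * qf G y (r * v) +
    (1 - v / (l / M)) ^ 2 * (qf' G y (r * v) * r)) := ⟨_, rfl⟩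
  have h1 := H 0 (l / M) le_rfl hX.le (QX (l / M)) (fun p => by
    rw [mem_QX]
    constructor
    · rintro ⟨h1, h2⟩
      exact ⟨h1, Real.log_pos (by exact_mod_cast h1.one_lt), h2⟩
    · rintro ⟨h1, _, h2⟩
      exact ⟨h1, h2⟩) F F' (fun v _ => by
    rw [hF, hF']
    have e1 : HasDerivAt (fun v : ℝ => 1 - v / (l / M)) (-(1 / (l / M))) v := by
      have := ((hasDerivAt_id v).div_const (l / M)).const_sub 1
      simpa using this
    have e2 : HasDerivAt (fun v : ℝ => (1 - v / (l / M)) ^ 2) (2 * (1 - v / (l / M)) * (-(1 / (l / M)))) v := by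
      have := e1.fun_pow 2
      simpa using this
    have e3 : HasDerivAt (fun v : ℝ => qf G y (r * v)) (qf' G y (r * v) * r) v := by
      have e4 : HasDerivAt (fun v : ℝ => r * v) r v := by simpa using (hasDerivAt_id v).const_mul r
      exact (qf_deriv G y (r * v)).comp v e4
    exact (e2.mul e3).const_mul r) (by
    rw [hF']
    have := qf_cont G y
    have := qf'_cont G y
    exact Continuous.continuousOn (by fun_prop))
  have h2 : ∑ p ∈ QX (l / M), Real.log p / p * F (Real.log p) =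
      ∑ p ∈ QX (l / M), (1 - M * Real.log p / l) ^ 2 * (R * Real.log p / l) * qf G y (R * Real.log p / l) / p := by
    refine Finset.sum_congr rfl fun p _ => ?_
    rw [hF, hr]
    simp only
    rw [show R / l * Real.log p = R * Real.log p / l by ring, show Real.log p / (l / M) = M * Real.log p / l by
      rw [div_div_eq_mul_div]; ring]
    ring
  have h3 : ∫ v in (0:ℝ)..(l / M), F v = ∫ u in (0:ℝ)..(R / M), (1 - u / (R / M)) ^ 2 * qf G y u := by
    rw [hF]
    rw [intervalIntegral.integral_const_mul]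
    have e1 : (fun v : ℝ => (1 - v / (l / M)) ^ 2 * qf G y (r * v)) =
        fun v => (fun u => (1 - u / (R / M)) ^ 2 * qf G y u) (r * v) := by
      funext v
      simp only
      congr 2
      rw [hr]
      field_simp
    have e2 : r * (l / M) = R / M := by
      rw [hr]
      field_simp
    rw [e1]
    refine (intervalIntegral.mul_integral_comp_mul_left (f := fun u => (1 - u / (R / M)) ^ 2 * qf G y u) r).trans ?_
    rw [mul_zero, e2]
  have h4 : F (l / M) = 0 := by
    rw [hF]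
    simp only
    rw [div_self hX.ne']
    ring
  have h5 : ∫ v in (0:ℝ)..(l / M), |F' v| ≤ 2 * (8 * A + A') * ((M + R + R * |y|) / l) := by
    have e1 : ∀ v ∈ Icc (0:ℝ) (l / M), |F' v| ≤ ((8 * A + A') * ((M + R + R * |y|) / l)) * (r * (1 + (r * v) ^ 2)⁻¹) := by
      intro v hv
      rw [hF']
      simp only
      rw [abs_mul, abs_of_pos hr0]
      have k1 : 0 ≤ 1 - v / (l / M) ∧ 1 - v / (l / M) ≤ 1 := by
        constructor
        · have : v / (l / M) ≤ 1 := by rw [div_le_one hX]; exact hv.2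
          linarith
        · have : 0 ≤ v / (l / M) := div_nonneg hv.1 hX.le
          linarith
      have k2 : |2 * (1 - v / (l / M)) * (-(1 / (l / M))) * qf G y (r * v)| ≤ 2 * (M / l) * ‖G (r * v)‖ := by
        rw [abs_mul]
        apply mul_le_mul _ (qf_le G y _) (abs_nonneg _) (by positivity)
        rw [abs_mul, abs_neg, abs_of_pos (by positivity : 0 < 1 / (l / M)), abs_mul, abs_of_pos (by norm_num : (0:ℝ) < 2),
          abs_of_nonneg k1.1, one_div, inv_div]
        exact mul_le_mul_of_nonneg_right (by linarith) (by positivity)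
      have k3 : |(1 - v / (l / M)) ^ 2 * (qf' G y (r * v) * r)| ≤ (2 * Real.pi * |y| * ‖G (r * v)‖ + ‖derivCLM ℝ ℂ G (r * v)‖) * (R / l) := by
        rw [abs_mul, abs_mul, abs_of_pos hr0, ← hr, abs_of_nonneg (by positivity : 0 ≤ (1 - v / (l / M)) ^ 2)]
        calc (1 - v / (l / M)) ^ 2 * (|qf' G y (r * v)| * r) ≤ 1 * (|qf' G y (r * v)| * r) :=
            mul_le_mul_of_nonneg_right (by nlinarith [k1.1, k1.2]) (by positivity)
          _ = |qf' G y (r * v)| * r := one_mul _
          _ ≤ _ := mul_le_mul_of_nonneg_right (qf'_le G y _) hr0.le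
      have k4 := hG (r * v)
      have k5 := hG' (r * v)
      have k6 : 0 ≤ (1 + (r * v) ^ 2)⁻¹ := by positivity
      have k7 : |2 * (1 - v / (l / M)) * (-(1 / (l / M))) * qf G y (r * v) + (1 - v / (l / M)) ^ 2 * (qf' G y (r * v) * r)| ≤
          (8 * A + A') * ((M + R + R * |y|) / l) * (1 + (r * v) ^ 2)⁻¹ := by
        refine (abs_add_le _ _).trans ((add_le_add k2 k3).trans ?_)
        have m1 : 2 * (M / l) * ‖G (r * v)‖ ≤ 2 * (M / l) * (A * (1 + (r * v) ^ 2)⁻¹) := mul_le_mul_of_nonneg_left k4 (by positivity)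
        have m2 : (2 * Real.pi * |y| * ‖G (r * v)‖ + ‖derivCLM ℝ ℂ G (r * v)‖) * (R / l) ≤
            (8 * |y| * (A * (1 + (r * v) ^ 2)⁻¹) + A' * (1 + (r * v) ^ 2)⁻¹) * (R / l) := by
          apply mul_le_mul_of_nonneg_right _ (by positivity)
          apply add_le_add _ k5
          apply mul_le_mul _ k4 (norm_nonneg _) (by positivity)
          exact mul_le_mul_of_nonneg_right (by linarith [Real.pi_lt_four]) (abs_nonneg y)
        refine (add_le_add m1 m2).trans ?_
        have m3 : 2 * (M / l) * (A * (1 + (r * v) ^ 2)⁻¹) + (8 * |y| * (A * (1 + (r * v) ^ 2)⁻¹) + A' * (1 + (r * v) ^ 2)⁻¹) * (R / l) =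
            ((2 * A) * (M / l) + (8 * A) * (R * |y| / l) + A' * (R / l)) * (1 + (r * v) ^ 2)⁻¹ := by ring
        rw [m3]
        apply mul_le_mul_of_nonneg_right _ k6
        have n1 : 0 ≤ M / l := by positivity
        have n2 : 0 ≤ R * |y| / l := by positivity
        have n3 : 0 ≤ R / l := by positivity
        have m4 : (8 * A + A') * ((M + R + R * |y|) / l) = (8 * A + A') * (M / l) + (8 * A + A') * (R / l) + (8 * A + A') * (R * |y| / l) := by ring
        rw [m4]
        nlinarith [mul_nonneg hA.le n1, mul_nonneg hA'.le n1, mul_nonneg hA.le n3, mul_nonneg hA'.le n2]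
      calc r * _ ≤ r * ((8 * A + A') * ((M + R + R * |y|) / l) * (1 + (r * v) ^ 2)⁻¹) := mul_le_mul_of_nonneg_left k7 hr0.le
        _ = _ := by ring
    have e2 : ∫ v in (0:ℝ)..(l / M), |F' v| ≤ ∫ v in (0:ℝ)..(l / M), ((8 * A + A') * ((M + R + R * |y|) / l)) * (r * (1 + (r * v) ^ 2)⁻¹) := by
      apply intervalIntegral.integral_mono_on hX.le _ _ e1
      · apply Continuous.intervalIntegrable
        rw [hF']
        have := qf_cont G y
        have := qf'_cont G y
        fun_prop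
      · apply Continuous.intervalIntegrable
        refine continuous_const.mul (continuous_const.mul (Continuous.inv₀ (by fun_prop) fun v => ?_))
        positivity
    refine e2.trans ?_
    rw [intervalIntegral.integral_const_mul, intervalIntegral.integral_const_mul]
    have e3 : r * ∫ v in (0:ℝ)..(l / M), (1 + (r * v) ^ 2)⁻¹ = ∫ v in (r * 0)..(r * (l / M)), (1 + v ^ 2)⁻¹ :=
      intervalIntegral.mul_integral_comp_mul_left (f := fun u : ℝ => (1 + u ^ 2)⁻¹) r
    rw [e3, mul_zero]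
    have e4 := atan_int (b := r * (l / M))
    have e5 : 0 ≤ (8 * A + A') * ((M + R + R * |y|) / l) := by positivity
    calc _ ≤ (8 * A + A') * ((M + R + R * |y|) / l) * 2 := mul_le_mul_of_nonneg_left e4 e5
      _ = _ := by ring
  rw [h2, h3, h4, abs_zero, zero_add] at h1
  refine h1.trans ?_
  calc E * _ ≤ E * (2 * (8 * A + A') * ((M + R + R * |y|) / l)) := mul_le_mul_of_nonneg_left h5 hE.le
    _ = _ := by ring

/-- **T1** -/
theorem inv_near {Psi : ℝ → ℝ} (hs : ContDiff ℝ ∞ Psi) (hc : HasCompactSupport Psi) :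
    ∃ G : 𝓢(ℝ, ℂ), ∃ C : ℝ, 0 < C ∧ ∀ l M R y : ℝ, 0 < l → 0 < M → 0 < R →
      |Psi y - 2 * ∑ p ∈ QX (l / M), (1 - M * Real.log p / l) ^ 2 * (R * Real.log p / l) * qf G y (R * Real.log p / l) / p| ≤
        C * (M / R + (M + R + R * |y|) / l) := by
  obtain ⟨G, hG⟩ := four hs hc
  obtain ⟨A, hA, -, hG1, -⟩ := dec2 G
  obtain ⟨C, hC, H⟩ := prime_part (G := G)
  refine ⟨G, 8 * A + 2 * C, by positivity, fun l M R y hl hM hR => ?_⟩
  have h1 := H l M R y hl hM hR
  have h2 := main_term hG1 hA (show 0 < R / M by positivity) y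
  have h3 : 4 * A / (R / M) = 4 * A * (M / R) := by field_simp
  rw [h3] at h2
  rw [hG y]
  have h4 : 0 ≤ M / R := by positivity
  have h5 : 0 ≤ (M + R + R * |y|) / l := by positivity
  have h6 := mul_nonneg hA.le h5
  have h7 := mul_nonneg hC.le h4
  rw [abs_le] at h1 h2 ⊢
  constructor <;> nlinarith [h1.1, h1.2, h2.1, h2.2]

/-- **T2** -/
theorem sq_sum (G : 𝓢(ℝ, ℂ)) : ∃ N : ℝ, 0 < N ∧ ∀ l M R : ℝ, 0 < M → M ≤ R → R ≤ l →
    ∑ p ∈ QX (l / M), (R * Real.log p / l) ^ 2 * ‖G (R * Real.log p / l)‖ ^ 2 / p ≤ N := by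
  classical
  obtain ⟨A, hA, hG0, -, hG3⟩ := dec2 G
  obtain ⟨E, hE, hs⟩ := mert_small
  obtain ⟨E', hE', H⟩ := Pool.Agent.Helper7.UV.prime_sum
  refine ⟨A ^ 2 * (2 + E + E'), by positivity, fun l M R hM hMR hRl => ?_⟩
  have hR : 0 < R := by linarith
  have hl : 0 < l := by linarith
  have hb1 : 1 ≤ l / R := by rwa [one_le_div hR]
  have hb0 : 0 < l / R := by linarith
  have hb12 : l / R ≤ l / M := div_le_div_of_nonneg_left hl.le hM hMR
  rw [← Finset.sum_filter_add_sum_filter_not (QX (l / M)) (fun p : ℕ => Real.log p ≤ l / R)]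
  have h1 : ∑ p ∈ (QX (l / M)).filter (fun p : ℕ => Real.log p ≤ l / R), (R * Real.log p / l) ^ 2 * ‖G (R * Real.log p / l)‖ ^ 2 / p ≤
      A ^ 2 * (1 + E) := by
    have e1 : (QX (l / M)).filter (fun p : ℕ => Real.log p ≤ l / R) = QX (l / R) := by
      ext p
      rw [Finset.mem_filter, mem_QX, mem_QX]
      constructor
      · rintro ⟨⟨h1, _⟩, h2⟩
        exact ⟨h1, h2⟩
      · rintro ⟨h1, h2⟩
        exact ⟨⟨h1, h2.trans hb12⟩, h2⟩
    rw [e1]
    have h2 := hs (l / R) hb0.le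
    have h3 : ∀ p ∈ QX (l / R), (R * Real.log p / l) ^ 2 * ‖G (R * Real.log p / l)‖ ^ 2 / p ≤ A ^ 2 / (l / R) * (Real.log p / p) := by
      intro p hp
      rw [mem_QX] at hp
      have hp0 : (0:ℝ) < p := by exact_mod_cast hp.1.pos
      have hl0 : 0 ≤ Real.log p := Real.log_natCast_nonneg p
      have h4 : R * Real.log p / l ≤ 1 := by
        rw [div_le_one hl, mul_comm]
        have := hp.2
        rwa [le_div_iff₀ hR] at this
      have h5 : 0 ≤ R * Real.log p / l := by positivity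
      have h6 : ‖G (R * Real.log p / l)‖ ≤ A := by
        refine (hG0 _).trans (mul_le_of_le_one_right hA.le ?_)
        exact inv_le_one_of_one_le₀ (by nlinarith [sq_nonneg (R * Real.log p / l)])
      have h7 : A ^ 2 / (l / R) * (Real.log p / p) = A ^ 2 * (R * Real.log p / l) / p := by
        field_simp
      rw [h7]
      apply div_le_div_of_nonneg_right _ hp0.le
      calc (R * Real.log p / l) ^ 2 * ‖G (R * Real.log p / l)‖ ^ 2 ≤ (R * Real.log p / l) ^ 2 * A ^ 2 :=
          mul_le_mul_of_nonneg_left (pow_le_pow_left₀ (norm_nonneg _) h6 2) (by positivity)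
        _ ≤ (R * Real.log p / l) * A ^ 2 := mul_le_mul_of_nonneg_right (by nlinarith) (by positivity)
        _ = _ := by ring
    refine (Finset.sum_le_sum h3).trans ?_
    rw [← Finset.mul_sum]
    have h9 : A ^ 2 / (l / R) * ∑ p ∈ QX (l / R), Real.log p / p ≤ A ^ 2 / (l / R) * (l / R + E) :=
      mul_le_mul_of_nonneg_left h2 (by positivity)
    refine h9.trans ?_
    rw [mul_add, div_mul_cancel₀ _ hb0.ne']
    have h10 : A ^ 2 / (l / R) ≤ A ^ 2 := div_le_self (by positivity) hb1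
    have := mul_le_mul_of_nonneg_right h10 hE.le
    linarith
  have h2 : ∑ p ∈ (QX (l / M)).filter (fun p : ℕ => ¬ Real.log p ≤ l / R), (R * Real.log p / l) ^ 2 * ‖G (R * Real.log p / l)‖ ^ 2 / p ≤
      A ^ 2 * (1 + E') := by
    have hne : ∀ u ∈ Icc (l / R) (l / M), u ≠ 0 := fun u hu => by
      have : 0 < u := by linarith [hu.1]
      exact this.ne'
    have hd : ∀ u : ℝ, u ≠ 0 → HasDerivAt (fun u : ℝ => l / R * (u ^ 2)⁻¹) (-(l / R * (2 * (u ^ 3)⁻¹))) u := by
      intro u hu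
      have e1 := ((hasDerivAt_pow 2 u).inv (pow_ne_zero 2 hu)).const_mul (l / R)
      refine e1.congr_deriv ?_
      push_cast
      field_simp
    have hcf : ContinuousOn (fun u : ℝ => -(l / R * (2 * (u ^ 3)⁻¹))) (Icc (l / R) (l / M)) := by
      apply ContinuousOn.neg
      apply ContinuousOn.mul continuousOn_const
      apply ContinuousOn.mul continuousOn_const
      apply ContinuousOn.inv₀ (by fun_prop)
      intro u hu
      exact pow_ne_zero 3 (hne u hu)
    have k1 := H (l / R) (l / M) hb0.le hb12 ((QX (l / M)).filter (fun p : ℕ => ¬ Real.log p ≤ l / R)) (fun p => by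
      rw [Finset.mem_filter, mem_QX, not_le]
      tauto) (fun u => l / R * (u ^ 2)⁻¹) (fun u => -(l / R * (2 * (u ^ 3)⁻¹))) (fun u hu => hd u (hne u hu)) hcf
    have hfl : ∀ u : ℝ, l / R * (u ^ 2)⁻¹ = l / R * (u ^ 2)⁻¹ := fun u => rfl
    have k2 : ∫ u in (l / R)..(l / M), l / R * (u ^ 2)⁻¹ = 1 - (l / R) * (l / M)⁻¹ := by
      have h6 := intervalIntegral.integral_eq_sub_of_hasDerivAt (a := l / R) (b := l / M) (f := fun u : ℝ => -(l / R * u⁻¹))
        (f' := fun u => l / R * (u ^ 2)⁻¹)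
        (fun u hu => by
          rw [uIcc_of_le hb12] at hu
          have := ((hasDerivAt_inv (hne u hu)).const_mul (l / R)).fun_neg
          refine this.congr_deriv ?_
          ring) (by
          apply ContinuousOn.intervalIntegrable
          rw [uIcc_of_le hb12]
          apply ContinuousOn.mul continuousOn_const
          apply ContinuousOn.inv₀ (by fun_prop)
          intro u hu
          exact pow_ne_zero 2 (hne u hu))
      rw [h6, mul_inv_cancel₀ hb0.ne']
      ring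
    have k3 : ∫ u in (l / R)..(l / M), |-(l / R * (2 * (u ^ 3)⁻¹))| = (l / R) * ((l / R) ^ 2)⁻¹ - (l / R) * ((l / M) ^ 2)⁻¹ := by
      have h5 : ∫ u in (l / R)..(l / M), |-(l / R * (2 * (u ^ 3)⁻¹))| = ∫ u in (l / R)..(l / M), -(-(l / R * (2 * (u ^ 3)⁻¹))) := by
        apply intervalIntegral.integral_congr
        intro u hu
        rw [uIcc_of_le hb12] at hu
        have : 0 < u := by linarith [hu.1]
        simp only
        rw [abs_neg, abs_of_nonneg (by positivity), neg_neg]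
      rw [h5, intervalIntegral.integral_neg, intervalIntegral.integral_eq_sub_of_hasDerivAt (f := fun u : ℝ => l / R * (u ^ 2)⁻¹)
        (fun u hu => by
          rw [uIcc_of_le hb12] at hu
          exact hd u (hne u hu)) (by
          apply ContinuousOn.intervalIntegrable
          rw [uIcc_of_le hb12]
          exact hcf)]
      ring
    rw [k2, k3, abs_of_nonneg (by positivity : 0 ≤ l / R * ((l / M) ^ 2)⁻¹)] at k1
    have k4 : (l / R) * ((l / R) ^ 2)⁻¹ ≤ 1 := by
      have : (l / R) * ((l / R) ^ 2)⁻¹ = (l / R)⁻¹ := by field_simp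
      rw [this]
      exact inv_le_one_of_one_le₀ hb1
    have k5 : 0 ≤ (l / R) * (l / M)⁻¹ := by positivity
    have k6 : ∑ p ∈ (QX (l / M)).filter (fun p : ℕ => ¬ Real.log p ≤ l / R), Real.log p / p * (l / R * (Real.log p ^ 2)⁻¹) ≤ 1 + E' := by
      have := (abs_le.1 k1).2
      have k7 : E' * (l / R * ((l / M) ^ 2)⁻¹ + (l / R * ((l / R) ^ 2)⁻¹ - l / R * ((l / M) ^ 2)⁻¹)) ≤ E' * 1 := by
        apply mul_le_mul_of_nonneg_left _ hE'.le
        linarith
      linarith
    calc _ ≤ ∑ p ∈ (QX (l / M)).filter (fun p : ℕ => ¬ Real.log p ≤ l / R), A ^ 2 * (Real.log p / p * (l / R * (Real.log p ^ 2)⁻¹)) := by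
          refine Finset.sum_le_sum fun p hp => ?_
          rw [Finset.mem_filter, mem_QX, not_le] at hp
          have hp0 : (0:ℝ) < p := by exact_mod_cast hp.1.1.pos
          have hl0 : 0 < Real.log p := by linarith [hp.2]
          obtain ⟨v, hv⟩ : ∃ v, v = R * Real.log p / l := ⟨_, rfl⟩
          have hv0 : 0 < v := by rw [hv]; positivity
          have h3 := hG3 v
          rw [abs_of_pos hv0] at h3
          have h4 : A ^ 2 * (Real.log p / p * (l / R * (Real.log p ^ 2)⁻¹)) = A ^ 2 / v / p := by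
            rw [hv]
            field_simp
          rw [h4, ← hv]
          apply div_le_div_of_nonneg_right _ hp0.le
          rw [le_div_iff₀ hv0]
          calc v ^ 2 * ‖G v‖ ^ 2 * v = v ^ 3 * ‖G v‖ ^ 2 := by ring
            _ ≤ A ^ 2 := h3
      _ = A ^ 2 * ∑ p ∈ (QX (l / M)).filter (fun p : ℕ => ¬ Real.log p ≤ l / R), Real.log p / p * (l / R * (Real.log p ^ 2)⁻¹) := by
          rw [Finset.mul_sum]
      _ ≤ A ^ 2 * (1 + E') := mul_le_mul_of_nonneg_left k6 (by positivity)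
  linarith

end Pool.Agent.Helper82.OG
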